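import Pool.Agent.V5helper19.ER.Stm2

/-!
# ER, job COR: the correlation of a function of level 1 with its translates
-/

set_option autoImplicit false
open Finset

namespace V5helper68.ER

open V5helper19.ER

lemma cardT (h : S_TR) {n : ℕ} (hn : 5 ≤ n) (i j : Fin n) : ((T i j).card : ℝ) = NN n / n := by
  have h1 := (h n hn).1 i j
  have hn0 : (n : ℝ) ≠ 0 := by
    have : (0 : ℝ) < n := by exact_mod_cast (by omega : 0 < n)
    exact this.ne'
  rw [eq_div_iff hn0, NN, ← h1]
  push_cast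
  ring

lemma cardT2 (h : S_TR) {n : ℕ} (hn : 5 ≤ n) {i j i' j' : Fin n} (hi : i ≠ i') (hj : j ≠ j') :
    ((T i j ∩ T i' j').card : ℝ) = NN n / (n * ((n : ℝ) - 1)) := by
  have h1 := (h n hn).2.1 i j i' j' hi hj
  have hn0 : (0 : ℝ) < n := by exact_mod_cast (by omega : 0 < n)
  have hn1 : (0 : ℝ) < (n : ℝ) - 1 := by
    have : (5 : ℝ) ≤ n := by exact_mod_cast hn
    linarith
  rw [eq_div_iff (mul_pos hn0 hn1).ne', NN, ← h1]
  push_cast [Nat.cast_sub (show 1 ≤ n by omega)]
  ring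

/-- first moments -/
lemma sum1 (h : S_TR) {n : ℕ} (hn : 5 ≤ n) (i : Fin n) (g : Fin n → ℝ) :
    ∑ x : G n, g ((x : Equiv.Perm (Fin n)) i) = NN n / n * ∑ l, g l := by
  rw [← Finset.sum_fiberwise (s := (univ : Finset (G n)))
    (g := fun x : G n => (x : Equiv.Perm (Fin n)) i), Finset.mul_sum]
  refine Finset.sum_congr rfl fun l _ => ?_
  have h1 : ∑ x ∈ univ.filter (fun x : G n => (x : Equiv.Perm (Fin n)) i = l),
      g ((x : Equiv.Perm (Fin n)) i) = ∑ x ∈ T i l, g l :=
    Finset.sum_congr rfl fun x hx => by rw [(Finset.mem_filter.1 hx).2]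
  rw [h1, Finset.sum_const, nsmul_eq_mul, cardT h hn]

/-- second moments -/
lemma sum2 (h : S_TR) {n : ℕ} (hn : 5 ≤ n) {i j : Fin n} (hij : i ≠ j) (g g' : Fin n → ℝ)
    (hg : ∑ l, g l = 0) :
    ∑ x : G n, g ((x : Equiv.Perm (Fin n)) i) * g' ((x : Equiv.Perm (Fin n)) j) =
      -(NN n / (n * ((n : ℝ) - 1)) * ∑ l, g l * g' l) := by
  rw [← Finset.sum_fiberwise (s := (univ : Finset (G n)))
    (g := fun x : G n => ((x : Equiv.Perm (Fin n)) i, (x : Equiv.Perm (Fin n)) j)),
    Fintype.sum_prod_type]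
  have h1 : ∀ l l' : Fin n, ∑ x ∈ univ.filter (fun x : G n =>
      ((x : Equiv.Perm (Fin n)) i, (x : Equiv.Perm (Fin n)) j) = (l, l')),
      g ((x : Equiv.Perm (Fin n)) i) * g' ((x : Equiv.Perm (Fin n)) j) =
      NN n / (n * ((n : ℝ) - 1)) * (g l * g' l') -
        (if l = l' then NN n / (n * ((n : ℝ) - 1)) * (g l * g' l') else 0) := by
    intro l l'
    have h2 : univ.filter (fun x : G n =>
        ((x : Equiv.Perm (Fin n)) i, (x : Equiv.Perm (Fin n)) j) = (l, l')) = T i l ∩ T j l' := by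
      ext x
      simp only [T, Finset.mem_filter, Finset.mem_univ, true_and, Finset.mem_inter, Prod.mk.injEq]
    rw [h2]
    have h3 : ∑ x ∈ T i l ∩ T j l', g ((x : Equiv.Perm (Fin n)) i) *
        g' ((x : Equiv.Perm (Fin n)) j) = ∑ x ∈ T i l ∩ T j l', g l * g' l' :=
      Finset.sum_congr rfl fun x hx => by
        obtain ⟨hx1, hx2⟩ := Finset.mem_inter.1 hx
        rw [(Finset.mem_filter.1 hx1).2, (Finset.mem_filter.1 hx2).2]
    rw [h3, Finset.sum_const, nsmul_eq_mul]
    by_cases hl : l = l'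
    · subst hl
      have h4 : T i l ∩ T j l = (∅ : Finset (G n)) := by
        refine Finset.eq_empty_of_forall_notMem fun x hx => ?_
        obtain ⟨hx1, hx2⟩ := Finset.mem_inter.1 hx
        exact hij ((x : Equiv.Perm (Fin n)).injective
          ((Finset.mem_filter.1 hx1).2.trans (Finset.mem_filter.1 hx2).2.symm))
      rw [h4, if_pos rfl, Finset.card_empty, Nat.cast_zero, zero_mul, sub_self]
    · rw [if_neg hl, sub_zero, cardT2 h hn hij hl]
  simp only [h1, Finset.sum_sub_distrib, ← Finset.mul_sum, Finset.sum_ite_eq, Finset.mem_univ,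
    if_true]
  rw [← Finset.sum_mul, hg, zero_mul, mul_zero, zero_sub]

/-- **COR.** -/
theorem t_COR (h : S_TR) : S_COR := by
  intro n hn b hr hc d
  have hn0 : (0 : ℝ) < n := by exact_mod_cast (by omega : 0 < n)
  have hn1 : (0 : ℝ) < (n : ℝ) - 1 := by
    have : (5 : ℝ) ≤ n := by exact_mod_cast hn
    linarith
  obtain ⟨c, hcdef⟩ : ∃ c : ℝ, c = NN n / (n * ((n : ℝ) - 1)) := ⟨_, rfl⟩
  have h1 : ∀ i i' : Fin n, ∑ x : G n, b i ((x : Equiv.Perm (Fin n)) i) *
      b i' (((x * d : G n) : Equiv.Perm (Fin n)) i') =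
      -(c * ∑ l, b i l * b i' l) +
        if (d : Equiv.Perm (Fin n)) i' = i then c * n * ∑ l, b i l * b i' l else 0 := by
    intro i i'
    have h2 : ∀ x : G n, ((x * d : G n) : Equiv.Perm (Fin n)) i' =
        (x : Equiv.Perm (Fin n)) ((d : Equiv.Perm (Fin n)) i') := fun x => rfl
    simp only [h2]
    by_cases hi : (d : Equiv.Perm (Fin n)) i' = i
    · rw [if_pos hi, hi, sum1 h hn i fun l => b i l * b i' l, hcdef]
      field_simp
      ring
    · rw [if_neg hi, add_zero, hcdef]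
      exact sum2 h hn (Ne.symm hi) (b i) (b i') (hr i)
  have h3 : ∀ x : G n, (∑ i, b i ((x : Equiv.Perm (Fin n)) i)) *
      (∑ i, b i (((x * d : G n) : Equiv.Perm (Fin n)) i)) =
      ∑ i', ∑ i, b i ((x : Equiv.Perm (Fin n)) i) *
        b i' (((x * d : G n) : Equiv.Perm (Fin n)) i') := by
    intro x
    rw [Finset.sum_mul_sum, Finset.sum_comm]
  simp only [h3]
  rw [Finset.sum_comm, Finset.mul_sum]
  refine Finset.sum_congr rfl fun i' _ => ?_
  rw [Finset.sum_comm]
  simp only [h1]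
  rw [Finset.sum_add_distrib, Finset.sum_ite_eq, if_pos (Finset.mem_univ _), Finset.sum_neg_distrib,
    ← Finset.mul_sum, Finset.sum_comm]
  have h4 : ∑ l, ∑ i, b i l * b i' l = 0 := by
    refine Finset.sum_eq_zero fun l _ => ?_
    rw [← Finset.sum_mul, hc l, zero_mul]
  rw [h4, mul_zero, neg_zero, zero_add, hcdef]
  congr 1
  field_simp

end V5helper68.ER
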